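import Pool.Agent.H94.EGC.S1

/-!
# EGC, row CLS: the induction step of the theorem of Clements and Lindström
-/

set_option autoImplicit false

namespace Pool.EGC

open Finset

/-- CLS. -/
theorem t_cls (hX : LXOStmt) (hT : TOPStmt) (hC : CMPStmt) (h1 : EX1Stmt)
    (h2 : EX2Stmt) : CLSStmt := by
  classical
  intro m hm c hc d A B hA hB hAB
  have hrk := (hT (m + 3) c d).1
  have htr : ∀ x y : Fin (m + 3) → ℕ, lx x y ∨ x = y ∨ lx y x := fun x y =>
    (hX (m + 3) x y 0).2.2.1
  -- the competitors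
  set F : Finset (Finset (Fin (m + 3) → ℕ)) := (Mo c d).powerset.filter
    (fun A' => A'.card = A.card ∧ (up c d A').card ≤ (up c d A).card) with hF
  have hAF : A ∈ F := by
    rw [hF, mem_filter, mem_powerset]
    exact ⟨hA, rfl, le_rfl⟩
  obtain ⟨S, hSF, hSmax⟩ := F.exists_max_image (wt c d) ⟨A, hAF⟩
  rw [hF, mem_filter, mem_powerset] at hSF
  obtain ⟨hS, hScard, hSup⟩ := hSF
  have hmax : ∀ T ⊆ Mo c d, T.card = A.card → (up c d T).card ≤ (up c d A).card →
      ¬ wt c d S < wt c d T := by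
    intro T hT' hTc hTu hlt
    have : T ∈ F := by
      rw [hF, mem_filter, mem_powerset]
      exact ⟨hT', hTc, hTu⟩
    exact absurd (hSmax T this) (not_le.mpr hlt)
  have hcm : ∀ i, Cm c d i S := by
    intro i
    obtain ⟨A', hA', hcard, hup, hcmp, hwt⟩ := hC (m + 2) hm c hc d S i hS
    by_cases h : A' = S
    · rw [← h]; exact hcmp
    · exact absurd (hwt h) (hmax A' hA' (hcard.trans hScard) (hup.trans hSup))
  by_cases hSB : S = B
  · rw [← hSB]; exact hSup
  exfalso
  -- a missing element of `B`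
  have hcardSB : S.card = B.card := by rw [hScard, hAB]
  have hnsub : ¬ B ⊆ S := by
    intro h
    exact hSB (Finset.eq_of_subset_of_card_le h hcardSB.le).symm
  have hnsub' : ¬ S ⊆ B := by
    intro h
    exact hSB (Finset.eq_of_subset_of_card_le h hcardSB.ge)
  obtain ⟨b0, hb0B, hb0S⟩ := Finset.not_subset.mp hnsub
  obtain ⟨a0, ha0S, ha0B⟩ := Finset.not_subset.mp hnsub'
  obtain ⟨b, hb, hbmax⟩ := (Mo c d \ S).exists_max_image (rk c d)
    ⟨b0, mem_sdiff.mpr ⟨hB.1 hb0B, hb0S⟩⟩
  obtain ⟨a, haS, hamin⟩ := S.exists_min_image (rk c d) ⟨a0, ha0S⟩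
  rw [mem_sdiff] at hb
  have hbbig : ∀ y ∈ Mo c d, lx b y → y ∈ S := by
    intro y hy hby
    by_contra hyS
    have := hbmax y (mem_sdiff.mpr ⟨hy, hyS⟩)
    exact absurd (hrk b hb.1 y hy hby) (not_lt.mpr this)
  have hasmall : ∀ y ∈ S, y ≠ a → lx a y := by
    intro y hy hya
    rcases htr a y with h | h | h
    · exact h
    · exact absurd h.symm hya
    · exact absurd (hrk y (hS hy) a (hS haS) h) (not_lt.mpr (hamin y hy))
  have hbB : b ∈ B := by
    rcases htr b0 b with h | h | h
    · exact hB.2 b0 hb0B b hb.1 h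
    · rw [← h]; exact hb0B
    · exact absurd (hbbig b0 (hB.1 hb0B) h) hb0S
  have ha0b : lx a0 b := by
    rcases htr a0 b with h | h | h
    · exact h
    · exact absurd (h ▸ hbB) ha0B
    · exact absurd (hB.2 b hbB a0 (hS ha0S) h) ha0B
  have hab : lx a b := by
    by_cases h : a0 = a
    · rw [← h]; exact ha0b
    · exact (hX (m + 3) a a0 b).2.1 (hasmall a0 ha0S h) ha0b
  have hbl : b (Fin.last (m + 2)) ≠ 0 := h1 m c hc d S hS hcm b hb.1 hb.2 a haS hab
  have hup2 := h2 (m + 2) c d S hS b hb.1 hb.2 hbbig a haS hasmall hab hbl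
  have hsub : insert b (S.erase a) ⊆ Mo c d := by
    intro x hx
    rcases mem_insert.mp hx with h | h
    · rw [h]; exact hb.1
    · exact hS (mem_of_mem_erase h)
  have hcard2 : (insert b (S.erase a)).card = S.card := by
    rw [card_insert_of_notMem (fun h => hb.2 (mem_of_mem_erase h)), card_erase_of_mem haS]
    have : 0 < S.card := card_pos.mpr ⟨a, haS⟩
    omega
  refine hmax (insert b (S.erase a)) hsub (hcard2.trans hScard) (hup2.trans hSup) ?_
  refine (hT (m + 3) c d).2 S (insert b (S.erase a)) hS hsub hcard2.symm ?_ ?_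
  · intro x hx hx' y hy hy'
    have hxa : x = a := by
      by_contra hne
      exact hx' (mem_insert_of_mem (mem_erase.mpr ⟨hne, hx⟩))
    have hyb : y = b := by
      rcases mem_insert.mp hy with h | h
      · exact h
      · exact absurd (mem_of_mem_erase h) hy'
    rw [hxa, hyb]; exact hab
  · intro h
    exact hb.2 (h ▸ mem_insert_self b (S.erase a))

end Pool.EGC
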