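import Pool.Agent.H94.EGC.S1

/-!
# EGC, row CMW: compression increases the weight
-/

set_option autoImplicit false

namespace Pool.EGC

open Finset

/-- The slices are the fibres. -/
theorem h97_sl_card {m : ℕ} (i : Fin (m + 1)) (t : ℕ) (A : Finset (Fin (m + 1) → ℕ)) :
    (sl i t A).card = (A.filter (fun x => x i = t)).card := by
  classical
  unfold sl
  refine card_image_of_injOn ?_
  intro x hx y hy hxy
  rw [Finset.mem_coe, mem_filter] at hx hy
  funext j
  rcases Fin.eq_self_or_eq_succAbove i j with h | ⟨k, h⟩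
  · rw [h, hx.2, hy.2]
  · rw [h]; exact congrFun hxy k

/-- CMW. -/
theorem t_cmw (hM : MOMStmt) (hX : LXOStmt) (hT : TOPStmt) : CMWStmt := by
  classical
  intro m c d i A A' hA hA' hcard hcm hne
  have htr : ∀ x y : Fin (m + 1) → ℕ, lx x y ∨ x = y ∨ lx y x := fun x y =>
    (hX (m + 1) x y 0).2.2.1
  have hcd : ∀ t, (A'.filter (fun x => x i = t)).card = (A.filter (fun x => x i = t)).card := by
    intro t
    rw [← h97_sl_card, ← h97_sl_card, hcard]
  have hle : ∀ x ∈ Mo c d, x i ∈ range (d + 1) := by
    intro x hx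
    have h := ((hM (m + 1) c d x).1.mp hx).1
    rw [mem_range]
    have := single_le_sum (f := x) (fun j _ => Nat.zero_le _) (mem_univ i)
    omega
  have hstep : ∀ t, A.filter (fun x => x i = t) ≠ A'.filter (fun x => x i = t) →
      wt c d (A.filter (fun x => x i = t)) < wt c d (A'.filter (fun x => x i = t)) := by
    intro t ht
    refine (hT (m + 1) c d).2 _ _ ((filter_subset _ _).trans hA) ((filter_subset _ _).trans hA')
      (hcd t).symm ?_ ht
    intro x hx hx' y hy hy'
    rw [mem_filter] at hx hy
    have hxA' : x ∉ A' := fun h => hx' (mem_filter.mpr ⟨h, hx.2⟩)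
    rcases htr x y with h | h | h
    · exact h
    · exact absurd (h ▸ hy.1) hxA'
    · exact absurd (hcm y hy.1 x (hA hx.1) (hy.2.trans hx.2.symm) h) hxA'
  have hstep' : ∀ t, wt c d (A.filter (fun x => x i = t)) ≤
      wt c d (A'.filter (fun x => x i = t)) := by
    intro t
    by_cases ht : A.filter (fun x => x i = t) = A'.filter (fun x => x i = t)
    · rw [ht]
    · exact (hstep t ht).le
  have hsum : ∀ B ⊆ Mo c d, wt c d B =
      ∑ t ∈ range (d + 1), wt c d (B.filter (fun x => x i = t)) := by
    intro B hB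
    unfold wt
    exact (sum_fiberwise_of_maps_to (fun x hx => hle x (hB hx)) _).symm
  rw [hsum A hA, hsum A' hA']
  refine sum_lt_sum (fun t _ => hstep' t) ?_
  by_contra hcon
  push Not at hcon
  apply hne
  have hkey : ∀ t ∈ range (d + 1), A.filter (fun x => x i = t) = A'.filter (fun x => x i = t) := by
    intro t ht
    by_contra h
    exact absurd (hstep t h) (not_lt.mpr (hcon t ht))
  ext x
  constructor
  · intro hx
    have := hkey (x i) (hle x (hA' hx))
    have h2 : x ∈ A'.filter (fun y => y i = x i) := mem_filter.mpr ⟨hx, rfl⟩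
    rw [← this] at h2
    exact (mem_filter.mp h2).1
  · intro hx
    have := hkey (x i) (hle x (hA hx))
    have h2 : x ∈ A.filter (fun y => y i = x i) := mem_filter.mpr ⟨hx, rfl⟩
    rw [this] at h2
    exact (mem_filter.mp h2).1

end Pool.EGC
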